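import Mathlib

set_option autoImplicit false
open Filter Topology
open scoped InnerProductSpace ComplexConjugate

/-!
# Positive operators with finite trace are compact; joint eigenvectors
-/

namespace Pool.Agent.Helper30.FX

variable {H : Type*} [NormedAddCommGroup H] [InnerProductSpace ℂ H]

/-- A linear map preserving a nonzero finite-dimensional subspace has an eigenvector there. -/
lemma exists_eigen {S : Submodule ℂ H} [FiniteDimensional ℂ S] (hS : S ≠ ⊥) (L : H →ₗ[ℂ] H)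
    (hL : ∀ x ∈ S, L x ∈ S) : ∃ α : ℂ, ∃ x ∈ S, x ≠ 0 ∧ L x = α • x := by
  have : Nontrivial S := Submodule.nontrivial_iff_ne_bot.mpr hS
  obtain ⟨α, hα⟩ := Module.End.exists_eigenvalue (L.restrict hL)
  obtain ⟨x, hx⟩ := hα.exists_hasEigenvector
  refine ⟨α, x, x.2, fun h => hx.2 (Subtype.ext h), ?_⟩
  have := congrArg Subtype.val hx.apply_eq_smul
  simpa using this

/-- Two commuting maps preserving a nonzero finite-dimensional subspace have a joint eigenvector. -/
lemma exists_joint {S : Submodule ℂ H} [FiniteDimensional ℂ S] (hS : S ≠ ⊥) (L M : H →ₗ[ℂ] H)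
    (hL : ∀ x ∈ S, L x ∈ S) (hM : ∀ x ∈ S, M x ∈ S) (hLM : ∀ x, L (M x) = M (L x)) :
    ∃ α β : ℂ, ∃ x ∈ S, x ≠ 0 ∧ L x = α • x ∧ M x = β • x := by
  obtain ⟨α, x, hxS, hx0, hx⟩ := exists_eigen hS L hL
  set S' : Submodule ℂ H := S ⊓ LinearMap.ker (L - α • LinearMap.id) with hS'
  have hmem : ∀ y, y ∈ S' ↔ y ∈ S ∧ L y = α • y := by
    intro y
    rw [hS', Submodule.mem_inf, LinearMap.mem_ker]
    simp [sub_eq_zero]
  have hxS' : x ∈ S' := (hmem x).2 ⟨hxS, hx⟩
  have hfd : FiniteDimensional ℂ S' := Submodule.finiteDimensional_of_le inf_le_left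
  have hne : S' ≠ ⊥ := fun h => hx0 (by rw [h] at hxS'; exact (Submodule.mem_bot ℂ).1 hxS')
  obtain ⟨β, y, hyS, hy0, hy⟩ := exists_eigen hne M (fun y hy => by
    rw [hmem] at hy ⊢
    exact ⟨hM y hy.1, by rw [hLM, hy.2, map_smul]⟩)
  rw [hmem] at hyS
  exact ⟨α, β, y, hyS.1, hy0, hyS.2, hy⟩

/-- Few directions carry almost all of the trace. -/
lemma exists_fd (T : H →L[ℂ] H) (C : ℝ)
    (hC : ∀ (m : ℕ) (b : Fin m → H), Orthonormal ℂ b → ∑ i, (⟪T (b i), b i⟫_ℂ).re ≤ C)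
    {ε : ℝ} (hε : 0 < ε) :
    ∃ (m : ℕ) (b : Fin m → H), Orthonormal ℂ b ∧
      ∀ v : H, (∀ i, ⟪v, b i⟫_ℂ = 0) → ‖v‖ = 1 → (⟪T v, v⟫_ℂ).re ≤ ε := by
  classical
  by_contra hcon
  push Not at hcon
  have key : ∀ m : ℕ, ∃ b : Fin m → H, Orthonormal ℂ b ∧ ∀ i, ε < (⟪T (b i), b i⟫_ℂ).re := by
    intro m
    induction m with
    | zero => exact ⟨fun i => i.elim0, ⟨fun i => i.elim0, fun i => i.elim0⟩, fun i => i.elim0⟩
    | succ m ih =>
      obtain ⟨b, hb, hbe⟩ := ih
      obtain ⟨v, hv1, hv2, hv3⟩ := hcon m b hb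
      refine ⟨Matrix.vecCons v b, orthonormal_vecCons_iff.2 ⟨hv2, hv1, hb⟩, ?_⟩
      intro i
      refine Fin.cases ?_ (fun j => ?_) i
      · simpa using hv3
      · simpa using hbe j
  obtain ⟨m, hm⟩ := exists_nat_gt (C / ε)
  obtain ⟨b, hb, hbe⟩ := key m
  have h1 := hC m b hb
  have h2 : (m : ℝ) * ε ≤ ∑ i, (⟪T (b i), b i⟫_ℂ).re := by
    calc (m : ℝ) * ε = ∑ _i : Fin m, ε := by simp
      _ ≤ _ := Finset.sum_le_sum (fun i _ => (hbe i).le)
  have h3 : C < m * ε := (div_lt_iff₀ hε).1 hm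
  linarith

/-- A positive operator with finite trace is compact. -/
lemma compact_of_trace [CompleteSpace H] (T : H →L[ℂ] H) (C K : ℝ) (hK0 : 0 ≤ K)
    (hK : ∀ v, ‖T v‖ ^ 2 ≤ K * (⟪T v, v⟫_ℂ).re)
    (hC : ∀ (m : ℕ) (b : Fin m → H), Orthonormal ℂ b → ∑ i, (⟪T (b i), b i⟫_ℂ).re ≤ C) :
    IsCompactOperator T := by
  classical
  have hcl : IsClosed {f : H →L[ℂ] H | IsCompactOperator f} := isClosed_setOfPred_isCompactOperator
  change T ∈ {f : H →L[ℂ] H | IsCompactOperator f}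
  rw [← hcl.closure_eq, Metric.mem_closure_iff]
  intro δ hδ
  set ε : ℝ := (δ / 2) ^ 2 / (K + 1) with hεdef
  have hε : 0 < ε := by positivity
  obtain ⟨m, b, hb, hbv⟩ := exists_fd T C hC hε
  set S : Submodule ℂ H := Submodule.span ℂ (Set.range b) with hS
  have hfd : FiniteDimensional ℂ S := FiniteDimensional.span_of_finite ℂ (Set.finite_range b)
  have hsmall : ∀ v ∈ Sᗮ, ‖T v‖ ≤ δ / 2 * ‖v‖ := by
    intro v hv
    by_cases hv0 : v = 0
    · simp [hv0]
    have hvn : 0 < ‖v‖ := norm_pos_iff.2 hv0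
    set u : H := ((‖v‖ : ℂ)⁻¹) • v with hu
    have hun : ‖u‖ = 1 := by
      rw [hu, norm_smul, norm_inv, Complex.norm_real, norm_norm, inv_mul_cancel₀ hvn.ne']
    have huv : v = (‖v‖ : ℂ) • u := by
      rw [hu, smul_smul, mul_inv_cancel₀ (by exact_mod_cast hvn.ne'), one_smul]
    have huS : ∀ i, ⟪u, b i⟫_ℂ = 0 := by
      intro i
      have h1 : b i ∈ S := Submodule.subset_span ⟨i, rfl⟩
      have h2 : u ∈ Sᗮ := Submodule.smul_mem _ _ hv
      exact (Submodule.mem_orthogonal' S u).1 h2 _ h1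
    have h1 := hbv u huS hun
    have h2 := hK u
    have h3 : ‖T u‖ ^ 2 ≤ (δ / 2) ^ 2 := by
      have h4 : K * (⟪T u, u⟫_ℂ).re ≤ K * ε := mul_le_mul_of_nonneg_left h1 hK0
      have h5 : K * ε ≤ (K + 1) * ε := by nlinarith
      have h6 : (K + 1) * ε = (δ / 2) ^ 2 := by
        rw [hεdef]
        field_simp
      linarith
    have h7 : ‖T u‖ ≤ δ / 2 := by
      have := abs_le_of_sq_le_sq' h3 (by positivity)
      exact this.2
    calc ‖T v‖ = ‖v‖ * ‖T u‖ := by
          conv_lhs => rw [huv]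
          rw [map_smul, norm_smul, Complex.norm_real, norm_norm]
      _ ≤ ‖v‖ * (δ / 2) := mul_le_mul_of_nonneg_left h7 hvn.le
      _ = δ / 2 * ‖v‖ := mul_comm _ _
  refine ⟨T.comp S.starProjection, ?_, ?_⟩
  · have hp : ProperSpace S := FiniteDimensional.proper ℂ S
    have h1 : IsCompactOperator (T.comp S.subtypeL) :=
      isCompactOperator_of_locallyCompactSpace_rng (T.comp S.subtypeL)
    exact h1.comp_clm S.orthogonalProjectionOnto
  · rw [dist_eq_norm]
    refine lt_of_le_of_lt (ContinuousLinearMap.opNorm_le_bound _ (by positivity : 0 ≤ δ / 2)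
      (fun v => ?_)) (by linarith)
    have h1 : (T - T.comp S.starProjection) v = T (v - S.starProjection v) := by
      simp [map_sub]
    rw [h1]
    refine (hsmall _ (S.sub_starProjection_mem_orthogonal v)).trans ?_
    refine mul_le_mul_of_nonneg_left ?_ (by positivity)
    have h2 : v - S.starProjection v = Sᗮ.starProjection v :=
      (Submodule.starProjection_orthogonal_val v).symm
    rw [h2]
    exact Submodule.norm_starProjection_apply_le _ _

end Pool.Agent.Helper30.FX
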