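import Mathlib
import Pool.Agent.Helper58.FX.Defs
import Pool.Agent.Helper30.FX.Compact

set_option autoImplicit false
open Filter Topology Helper58.FX
open scoped InnerProductSpace ComplexConjugate

/-!
# FX-1: weak mixing of two commuting isometries off the joint eigenvectors
-/

namespace Pool.Agent.Helper30.FX

variable {H : Type*} [NormedAddCommGroup H] [InnerProductSpace ℂ H] {U V : H →ₗᵢ[ℂ] H}

/-! ### the action -/

lemma act_succ_left (U V : H →ₗᵢ[ℂ] H) (i j : ℕ) (w : H) :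
    act U V (i + 1, j) w = U (act U V (i, j) w) := by
  simp only [act, pow_succ', mul_assoc]
  rfl

lemma act_succ_right (hUV : Commute U V) (i j : ℕ) (w : H) :
    act U V (i, j + 1) w = V (act U V (i, j) w) := by
  have h : U ^ i * V ^ (j + 1) = V * (U ^ i * V ^ j) := by
    rw [pow_succ', ← mul_assoc, (hUV.pow_left i).eq, mul_assoc]
  simp only [act, h]
  rfl

lemma norm_act (s : ℕ × ℕ) (w : H) : ‖act U V s w‖ = ‖w‖ := (act U V s).norm_map w

lemma pow_eigen (L : H →ₗᵢ[ℂ] H) {α : ℂ} {v : H} (h : L v = α • v) (i : ℕ) :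
    (L ^ i) v = α ^ i • v := by
  induction i with
  | zero => simp
  | succ i ih =>
    rw [pow_succ', pow_succ]
    show L ((L ^ i) v) = _
    rw [ih, map_smul, h, smul_smul]

/-- The orthogonal complement of the compact part is invariant. -/
lemma act_orth [CompleteSpace H] (s : ℕ × ℕ) {w : H} (hw : w ∈ (Hc U V)ᗮ) :
    act U V s w ∈ (Hc U V)ᗮ := by
  unfold Hc at hw ⊢
  rw [Submodule.orthogonal_closure] at hw ⊢
  rw [Submodule.mem_orthogonal] at hw ⊢
  intro u hu
  refine Submodule.span_induction ?_ ?_ ?_ ?_ hu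
  · rintro v ⟨α, β, hα, hβ⟩
    have h0 : ⟪v, w⟫_ℂ = 0 := hw v (Submodule.subset_span ⟨α, β, hα, hβ⟩)
    have h1 : act U V s v = (α ^ s.1 * β ^ s.2) • v := by
      show (U ^ s.1) ((V ^ s.2) v) = _
      rw [pow_eigen V hβ, map_smul, pow_eigen U hα, smul_smul, mul_comm]
    have h2 : ⟪act U V s v, act U V s w⟫_ℂ = 0 := by
      rw [LinearIsometry.inner_map_map, h0]
    rw [h1, inner_smul_left] at h2
    by_cases hv : v = 0
    · rw [hv, inner_zero_left]
    rcases mul_eq_zero.1 h2 with h3 | h3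
    · exfalso
      have h4 : ‖act U V s v‖ = ‖v‖ := norm_act s v
      have h5 : α ^ s.1 * β ^ s.2 = 0 := by
        have := congrArg conj h3
        simpa using this
      rw [h1, h5, zero_smul, norm_zero] at h4
      exact hv (norm_eq_zero.1 h4.symm)
    · exact h3
  · exact inner_zero_left _
  · intro x y _ _ hx hy
    rw [inner_add_left, hx, hy, add_zero]
  · intro a x _ hx
    rw [inner_smul_left, hx, mul_zero]

/-! ### means over boxes -/

/-- complex mean over the box -/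
noncomputable def cm (f : ℕ × ℕ → ℂ) (N : ℕ) : ℂ := (∑ s ∈ box N, f s) / (N : ℂ) ^ 2

lemma cm_add (f g : ℕ × ℕ → ℂ) (N : ℕ) : cm (fun s => f s + g s) N = cm f N + cm g N := by
  simp only [cm, Finset.sum_add_distrib, add_div]

lemma cm_smul (a : ℂ) (f : ℕ × ℕ → ℂ) (N : ℕ) : cm (fun s => a * f s) N = a * cm f N := by
  simp only [cm, ← Finset.mul_sum, mul_div_assoc]

lemma cm_bound {f : ℕ × ℕ → ℂ} {C : ℝ} (hC : 0 ≤ C) (hf : ∀ s, ‖f s‖ ≤ C) (N : ℕ) :
    ‖cm f N‖ ≤ C := by
  unfold cm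
  rcases Nat.eq_zero_or_pos N with rfl | hN
  · simpa [box] using hC
  have hN' : (0 : ℝ) < (N : ℝ) ^ 2 := by positivity
  rw [norm_div, norm_pow, Complex.norm_natCast, div_le_iff₀ hN']
  refine (norm_sum_le _ _).trans ?_
  refine (Finset.sum_le_sum (fun s _ => hf s)).trans ?_
  rw [Finset.sum_const, box, Finset.card_product, Finset.card_range, nsmul_eq_mul]
  push_cast
  apply le_of_eq
  ring

/-- Shifting a box in the first coordinate. -/
lemma cm_shift_left {f : ℕ × ℕ → ℂ} {C : ℝ} (hf : ∀ s, ‖f s‖ ≤ C) :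
    Tendsto (fun N => cm f N - cm (fun s => f (s.1 + 1, s.2)) N) atTop (𝓝 0) := by
  have hC : 0 ≤ C := (norm_nonneg _).trans (hf (0, 0))
  have hb : ∀ N : ℕ, ‖cm f N - cm (fun s => f (s.1 + 1, s.2)) N‖ ≤ 2 * C / (N : ℝ) := by
    intro N
    rcases Nat.eq_zero_or_pos N with rfl | hN
    · simp [cm, box]
    have hN' : (0 : ℝ) < (N : ℝ) := by exact_mod_cast hN
    have h1 : cm f N - cm (fun s => f (s.1 + 1, s.2)) N =
        (∑ j ∈ Finset.range N, (f (0, j) - f (N, j))) / (N : ℂ) ^ 2 := by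
      simp only [cm, box]
      rw [← sub_div, Finset.sum_product_right, Finset.sum_product_right,
        ← Finset.sum_sub_distrib]
      congr 1
      refine Finset.sum_congr rfl (fun j _ => ?_)
      rw [← Finset.sum_sub_distrib]
      exact Finset.sum_range_sub' (fun i => f (i, j)) N
    rw [h1, norm_div, norm_pow, Complex.norm_natCast, div_le_div_iff₀ (by positivity) hN']
    have h2 : ‖∑ j ∈ Finset.range N, (f (0, j) - f (N, j))‖ ≤ N * (2 * C) := by
      refine (norm_sum_le _ _).trans ?_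
      refine (Finset.sum_le_sum (g := fun _ => 2 * C) (fun j _ => ?_)).trans ?_
      · refine (norm_sub_le _ _).trans ?_
        have := hf (0, j)
        have := hf (N, j)
        linarith
      · rw [Finset.sum_const, Finset.card_range, nsmul_eq_mul]
    calc ‖∑ j ∈ Finset.range N, (f (0, j) - f (N, j))‖ * N ≤ (N * (2 * C)) * N :=
          mul_le_mul_of_nonneg_right h2 hN'.le
      _ = 2 * C * (N : ℝ) ^ 2 := by ring
  refine squeeze_zero_norm hb ?_
  exact tendsto_const_div_atTop_nhds_zero_nat (2 * C)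

/-- Shifting a box in the second coordinate. -/
lemma cm_shift_right {f : ℕ × ℕ → ℂ} {C : ℝ} (hf : ∀ s, ‖f s‖ ≤ C) :
    Tendsto (fun N => cm f N - cm (fun s => f (s.1, s.2 + 1)) N) atTop (𝓝 0) := by
  have h := cm_shift_left (f := fun s => f (s.2, s.1)) (C := C) (fun s => hf _)
  refine h.congr (fun N => ?_)
  have e : ∀ g : ℕ × ℕ → ℂ, cm (fun s => g (s.2, s.1)) N = cm g N := by
    intro g
    simp only [cm, box]
    congr 1
    rw [Finset.sum_product, Finset.sum_product_right]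
  rw [e f, ← e (fun s => f (s.1, s.2 + 1))]

/-! ### the limit form -/

/-- The terms of the form. -/
noncomputable def tm (U V : H →ₗᵢ[ℂ] H) (w u v : H) (s : ℕ × ℕ) : ℂ :=
  ⟪u, act U V s w⟫_ℂ * ⟪act U V s w, v⟫_ℂ

lemma tm_bound (w u v : H) (s : ℕ × ℕ) : ‖tm U V w u v s‖ ≤ ‖w‖ ^ 2 * ‖u‖ * ‖v‖ := by
  unfold tm
  rw [norm_mul]
  have h1 : ‖⟪u, act U V s w⟫_ℂ‖ ≤ ‖u‖ * ‖w‖ := by
    simpa [norm_act] using norm_inner_le_norm (𝕜 := ℂ) u (act U V s w)
  have h2 : ‖⟪act U V s w, v⟫_ℂ‖ ≤ ‖w‖ * ‖v‖ := by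
    simpa [norm_act] using norm_inner_le_norm (𝕜 := ℂ) (act U V s w) v
  calc _ ≤ (‖u‖ * ‖w‖) * (‖w‖ * ‖v‖) := mul_le_mul h1 h2 (norm_nonneg _) (by positivity)
    _ = ‖w‖ ^ 2 * ‖u‖ * ‖v‖ := by ring

lemma tm_conj (w u v : H) (s : ℕ × ℕ) : conj (tm U V w u v s) = tm U V w v u s := by
  unfold tm
  rw [map_mul, inner_conj_symm, inner_conj_symm, mul_comm]

lemma tm_self (w v : H) (s : ℕ × ℕ) :
    tm U V w v v s = ((‖⟪v, act U V s w⟫_ℂ‖ ^ 2 : ℝ) : ℂ) := by
  unfold tm
  rw [← inner_conj_symm (act U V s w) v, Complex.mul_conj, Complex.normSq_eq_norm_sq]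

variable (F : Ultrafilter ℕ)

lemma exists_lim (w u v : H) :
    ∃ z : ℂ, Tendsto (cm (tm U V w u v)) F (𝓝 z) := by
  have hK : IsCompact (Metric.closedBall (0 : ℂ) (‖w‖ ^ 2 * ‖u‖ * ‖v‖)) :=
    isCompact_closedBall _ _
  have h1 : ∀ N, cm (tm U V w u v) N ∈ Metric.closedBall (0 : ℂ) (‖w‖ ^ 2 * ‖u‖ * ‖v‖) := by
    intro N
    rw [mem_closedBall_zero_iff]
    exact cm_bound (by positivity) (tm_bound w u v) N
  obtain ⟨z, _, hz⟩ := hK.ultrafilter_le_nhds (F.map (cm (tm U V w u v)))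
    (tendsto_principal.2 (Filter.Eventually.of_forall h1))
  exact ⟨z, hz⟩

/-- The limit form. -/
noncomputable def BB (U V : H →ₗᵢ[ℂ] H) (w u v : H) : ℂ := (exists_lim (U := U) (V := V) F w u v).choose

lemma BB_spec (w u v : H) : Tendsto (cm (tm U V w u v)) F (𝓝 (BB F U V w u v)) :=
  (exists_lim (U := U) (V := V) F w u v).choose_spec

lemma BB_eq {w u v : H} {z : ℂ} (h : Tendsto (cm (tm U V w u v)) F (𝓝 z)) :
    BB F U V w u v = z := tendsto_nhds_unique (BB_spec F w u v) h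

lemma BB_bound (w u v : H) : ‖BB F U V w u v‖ ≤ ‖w‖ ^ 2 * ‖u‖ * ‖v‖ :=
  le_of_tendsto (BB_spec F w u v).norm
    (Filter.Eventually.of_forall (cm_bound (by positivity) (tm_bound w u v)))

lemma BB_add_left (w u u' v : H) :
    BB F U V w (u + u') v = BB F U V w u v + BB F U V w u' v := by
  refine BB_eq F (((BB_spec F w u v).add (BB_spec F w u' v)).congr (fun N => ?_))
  rw [← cm_add]
  congr 1
  funext s
  simp only [tm, inner_add_left, add_mul]

lemma BB_add_right (w u v v' : H) :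
    BB F U V w u (v + v') = BB F U V w u v + BB F U V w u v' := by
  refine BB_eq F (((BB_spec F w u v).add (BB_spec F w u v')).congr (fun N => ?_))
  rw [← cm_add]
  congr 1
  funext s
  simp only [tm, inner_add_right, mul_add]

lemma BB_smul_left (w u v : H) (a : ℂ) :
    BB F U V w (a • u) v = conj a * BB F U V w u v := by
  refine BB_eq F (((BB_spec F w u v).const_mul (conj a)).congr (fun N => ?_))
  rw [← cm_smul]
  congr 1
  funext s
  simp only [tm, inner_smul_left, mul_assoc]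

lemma BB_smul_right (w u v : H) (a : ℂ) :
    BB F U V w u (a • v) = a * BB F U V w u v := by
  refine BB_eq F (((BB_spec F w u v).const_mul a).congr (fun N => ?_))
  rw [← cm_smul]
  congr 1
  funext s
  simp only [tm, inner_smul_right]
  ring

/-- The form as a continuous sesquilinear map. -/
noncomputable def BL (U V : H →ₗᵢ[ℂ] H) (w : H) : H →L⋆[ℂ] H →L[ℂ] ℂ :=
  LinearMap.mkContinuous₂
    (LinearMap.mk₂'ₛₗ (starRingEnd ℂ) (RingHom.id ℂ) (fun u v => BB F U V w u v)
      (fun u u' v => BB_add_left F w u u' v) (fun a u v => BB_smul_left F w u v a)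
      (fun u v v' => BB_add_right F w u v v') (fun a u v => BB_smul_right F w u v a))
    (‖w‖ ^ 2) (fun u v => BB_bound F w u v)

lemma BL_apply (w u v : H) : BL F U V w u v = BB F U V w u v := rfl

lemma BB_conj (w u v : H) : conj (BB F U V w u v) = BB F U V w v u := by
  symm
  refine BB_eq F (((Complex.continuous_conj.tendsto _).comp (BB_spec F w u v)).congr (fun N => ?_))
  simp only [Function.comp_apply, cm]
  rw [map_div₀, map_sum, map_pow, Complex.conj_natCast]
  congr 1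
  exact Finset.sum_congr rfl (fun s _ => tm_conj w u v s)

lemma cm_re_self (w v : H) (N : ℕ) :
    (cm (tm U V w v v) N).re = (∑ s ∈ box N, ‖⟪v, act U V s w⟫_ℂ‖ ^ 2) / (N : ℝ) ^ 2 := by
  simp only [cm, tm_self]
  rw [← Complex.ofReal_sum, ← Complex.ofReal_natCast, ← Complex.ofReal_pow,
    ← Complex.ofReal_div, Complex.ofReal_re]

lemma card_box (N : ℕ) : ((box N).card : ℝ) = (N : ℝ) ^ 2 := by
  rw [box, Finset.card_product, Finset.card_range]
  push_cast
  ring

lemma cm_cs (w u v : H) (N : ℕ) :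
    ‖cm (tm U V w u v) N‖ ^ 2 ≤ ‖u‖ ^ 2 * ‖w‖ ^ 2 * (cm (tm U V w v v) N).re := by
  rw [cm_re_self]
  rcases Nat.eq_zero_or_pos N with rfl | hN
  · simp [cm, box]
  have hN' : (0 : ℝ) < (N : ℝ) ^ 2 := by positivity
  have h1 : ‖∑ s ∈ box N, tm U V w u v s‖ ≤
      ∑ s ∈ box N, (‖u‖ * ‖w‖) * ‖⟪v, act U V s w⟫_ℂ‖ := by
    refine (norm_sum_le _ _).trans (Finset.sum_le_sum (fun s _ => ?_))
    unfold tm
    rw [norm_mul, norm_inner_symm (act U V s w) v]
    refine mul_le_mul_of_nonneg_right ?_ (norm_nonneg _)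
    simpa [norm_act] using norm_inner_le_norm (𝕜 := ℂ) u (act U V s w)
  have h2 : ‖∑ s ∈ box N, tm U V w u v s‖ ^ 2 ≤
      (N : ℝ) ^ 2 * ∑ s ∈ box N, ((‖u‖ * ‖w‖) * ‖⟪v, act U V s w⟫_ℂ‖) ^ 2 := by
    refine (pow_le_pow_left₀ (norm_nonneg _) h1 2).trans ?_
    rw [← card_box]
    exact sq_sum_le_card_mul_sum_sq
  have h3 : ∑ s ∈ box N, ((‖u‖ * ‖w‖) * ‖⟪v, act U V s w⟫_ℂ‖) ^ 2 =
      ‖u‖ ^ 2 * ‖w‖ ^ 2 * ∑ s ∈ box N, ‖⟪v, act U V s w⟫_ℂ‖ ^ 2 := by
    rw [Finset.mul_sum]
    exact Finset.sum_congr rfl (fun s _ => by ring)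
  rw [h3] at h2
  unfold cm
  rw [norm_div, norm_pow, Complex.norm_natCast, div_pow, ← mul_div_assoc,
    div_le_div_iff₀ (by positivity) hN']
  calc _ ≤ ((N : ℝ) ^ 2 * (‖u‖ ^ 2 * ‖w‖ ^ 2 * ∑ s ∈ box N, ‖⟪v, act U V s w⟫_ℂ‖ ^ 2)) *
        (N : ℝ) ^ 2 := mul_le_mul_of_nonneg_right h2 hN'.le
    _ = _ := by ring

lemma BB_cs (w u v : H) :
    ‖BB F U V w u v‖ ^ 2 ≤ ‖u‖ ^ 2 * ‖w‖ ^ 2 * (BB F U V w v v).re := by
  refine le_of_tendsto_of_tendsto' ((BB_spec F w u v).norm.pow 2)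
    (((Complex.continuous_re.tendsto _).comp (BB_spec F w v v)).const_mul _) (fun N => ?_)
  exact cm_cs w u v N

lemma BB_trace (w : H) {m : ℕ} {b : Fin m → H} (hb : Orthonormal ℂ b) :
    ∑ i, (BB F U V w (b i) (b i)).re ≤ ‖w‖ ^ 2 := by
  have h1 : Tendsto (fun N => ∑ i, (cm (tm U V w (b i) (b i)) N).re) F
      (𝓝 (∑ i, (BB F U V w (b i) (b i)).re)) :=
    tendsto_finsetSum _ (fun i _ =>
      (Complex.continuous_re.tendsto _).comp (BB_spec F w (b i) (b i)))
  refine le_of_tendsto' h1 (fun N => ?_)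
  simp only [cm_re_self]
  rw [← Finset.sum_div, Finset.sum_comm]
  rcases Nat.eq_zero_or_pos N with rfl | hN
  · simp [box]
  have hN' : (0 : ℝ) < (N : ℝ) ^ 2 := by positivity
  rw [div_le_iff₀ hN', ← card_box, mul_comm, ← nsmul_eq_mul, ← Finset.sum_const]
  refine Finset.sum_le_sum (fun s _ => ?_)
  have := hb.sum_inner_products_le (s := Finset.univ) (act U V s w)
  rwa [norm_act] at this

variable [CompleteSpace H]

/-- The limit operator. -/
noncomputable def TT (U V : H →ₗᵢ[ℂ] H) (w : H) : H →L[ℂ] H :=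
  InnerProductSpace.continuousLinearMapOfBilin (BL F U V w)

lemma TT_inner (w u v : H) : ⟪TT F U V w u, v⟫_ℂ = BB F U V w u v :=
  InnerProductSpace.continuousLinearMapOfBilin_apply (BL F U V w) u v

lemma TT_symm (w : H) : (TT F U V w).IsSymmetric := by
  intro u v
  show ⟪TT F U V w u, v⟫_ℂ = ⟪u, TT F U V w v⟫_ℂ
  rw [TT_inner, ← inner_conj_symm, TT_inner, BB_conj]

lemma TT_compact (w : H) : IsCompactOperator (TT F U V w) := by
  refine compact_of_trace (TT F U V w) (‖w‖ ^ 2) (‖w‖ ^ 2) (by positivity) (fun v => ?_)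
    (fun m b hb => ?_)
  · rw [TT_inner]
    by_cases hv : TT F U V w v = 0
    · rw [hv, norm_zero]
      have h0 : 0 ≤ (BB F U V w v v).re := by
        refine ge_of_tendsto' ((Complex.continuous_re.tendsto _).comp (BB_spec F w v v))
          (fun N => ?_)
        simp only [Function.comp_apply, cm_re_self]
        positivity
      have h1 : 0 ≤ ‖w‖ ^ 2 * (BB F U V w v v).re := mul_nonneg (by positivity) h0
      simpa using h1
    have hpos : 0 < ‖TT F U V w v‖ ^ 2 := by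
      have := norm_pos_iff.2 hv
      positivity
    have h1 := BB_cs (U := U) (V := V) F w (TT F U V w v) v
    have h2 : BB F U V w (TT F U V w v) v = ((‖TT F U V w v‖ ^ 2 : ℝ) : ℂ) := by
      rw [← BB_conj, ← TT_inner, inner_self_eq_norm_sq_to_K]
      simp
    rw [h2, Complex.norm_real, Real.norm_of_nonneg (by positivity)] at h1
    have h3 : ‖TT F U V w v‖ ^ 2 * ‖TT F U V w v‖ ^ 2 ≤
        ‖TT F U V w v‖ ^ 2 * (‖w‖ ^ 2 * (BB F U V w v v).re) := by
      calc _ = (‖TT F U V w v‖ ^ 2) ^ 2 := by ring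
        _ ≤ _ := h1
        _ = _ := by ring
    exact le_of_mul_le_mul_left h3 hpos
  · simp only [TT_inner]
    exact BB_trace F w hb

lemma TT_comm_left (hF : (F : Filter ℕ) ≤ atTop) (w v : H) :
    TT F U V w (U v) = U (TT F U V w v) := by
  refine ext_inner_right ℂ (fun u => ?_)
  set A := ContinuousLinearMap.adjoint U.toContinuousLinearMap with hA
  have hAd : ∀ x, ⟪x, A u⟫_ℂ = ⟪U x, u⟫_ℂ := fun x => by
    rw [hA, ContinuousLinearMap.adjoint_inner_right]
    rfl
  rw [TT_inner, ← hAd, TT_inner]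
  have h1 := (cm_shift_left (tm_bound (U := U) (V := V) w (U v) u)).mono_left hF
  have h2 : (fun s : ℕ × ℕ => tm U V w (U v) u (s.1 + 1, s.2)) = tm U V w v (A u) := by
    funext s
    simp only [tm]
    rw [act_succ_left, LinearIsometry.inner_map_map, hAd]
  rw [h2] at h1
  have h3 := (BB_spec (U := U) (V := V) F w (U v) u).sub (BB_spec (U := U) (V := V) F w v (A u))
  have h4 := tendsto_nhds_unique h3 h1
  exact sub_eq_zero.1 h4

lemma TT_comm_right (hUV : Commute U V) (hF : (F : Filter ℕ) ≤ atTop) (w v : H) :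
    TT F U V w (V v) = V (TT F U V w v) := by
  refine ext_inner_right ℂ (fun u => ?_)
  set A := ContinuousLinearMap.adjoint V.toContinuousLinearMap with hA
  have hAd : ∀ x, ⟪x, A u⟫_ℂ = ⟪V x, u⟫_ℂ := fun x => by
    rw [hA, ContinuousLinearMap.adjoint_inner_right]
    rfl
  rw [TT_inner, ← hAd, TT_inner]
  have h1 := (cm_shift_right (tm_bound (U := U) (V := V) w (V v) u)).mono_left hF
  have h2 : (fun s : ℕ × ℕ => tm U V w (V v) u (s.1, s.2 + 1)) = tm U V w v (A u) := by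
    funext s
    simp only [tm]
    rw [act_succ_right hUV, LinearIsometry.inner_map_map, hAd]
  rw [h2] at h1
  have h3 := (BB_spec (U := U) (V := V) F w (V v) u).sub (BB_spec (U := U) (V := V) F w v (A u))
  have h4 := tendsto_nhds_unique h3 h1
  exact sub_eq_zero.1 h4

lemma TT_orth {w : H} (hw : w ∈ (Hc U V)ᗮ) (v : H) : TT F U V w v ∈ (Hc U V)ᗮ := by
  rw [Submodule.mem_orthogonal']
  intro u hu
  rw [TT_inner]
  refine BB_eq F ?_
  refine tendsto_const_nhds.congr (fun N => ?_)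
  have : tm U V w v u = fun _ => 0 := by
    funext s
    simp only [tm]
    rw [(Submodule.mem_orthogonal' _ _).1 (act_orth s hw) u hu, mul_zero]
  rw [this]
  simp [cm]

lemma TT_zero (hUV : Commute U V) (hF : (F : Filter ℕ) ≤ atTop) {w : H}
    (hw : w ∈ (Hc U V)ᗮ) : TT F U V w = 0 := by
  refine (ContinuousLinearMap.eq_zero_of_forall_hasEigenvalue_eq_zero (TT_compact F w)
    (TT_symm F w)).1 (fun μ hμ => ?_)
  by_contra hμ0
  set S := Module.End.eigenspace (TT F U V w).toLinearMap μ with hS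
  have hfd : FiniteDimensional ℂ S :=
    ContinuousLinearMap.finite_dimensional_eigenspace (TT_compact F w) μ hμ0
  have hmem : ∀ x, x ∈ S ↔ TT F U V w x = μ • x := fun x => Module.End.mem_eigenspace_iff
  have hne : S ≠ ⊥ := hμ
  obtain ⟨α, β, x, hxS, hx0, hx1, hx2⟩ := exists_joint hne U.toLinearMap V.toLinearMap
    (fun x hx => by
      rw [hmem] at hx ⊢
      show TT F U V w (U x) = μ • U x
      rw [TT_comm_left F hF, hx, map_smul])
    (fun x hx => by
      rw [hmem] at hx ⊢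
      show TT F U V w (V x) = μ • V x
      rw [TT_comm_right F hUV hF, hx, map_smul])
    (fun x => by
      show (U * V) x = (V * U) x
      rw [hUV.eq])
  have h1 : x ∈ Hc U V := Submodule.le_topologicalClosure _ (Submodule.subset_span ⟨α, β, hx1, hx2⟩)
  have h2 : x ∈ (Hc U V)ᗮ := by
    have h3 : x = μ⁻¹ • TT F U V w x := by
      rw [(hmem x).1 hxS, smul_smul, inv_mul_cancel₀ hμ0, one_smul]
    rw [h3]
    exact Submodule.smul_mem _ _ (TT_orth F hw x)
  have h3 : ⟪x, x⟫_ℂ = 0 := (Submodule.mem_orthogonal _ _).1 h2 x h1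
  exact hx0 (inner_self_eq_zero.1 h3)

/-- FX-1 -/
theorem weak_mixing (hUV : Commute U V) {w : H} (hw : w ∈ (Hc U V)ᗮ) (g : H) :
    Tendsto (mean (fun s => ‖⟪g, act U V s w⟫_ℂ‖ ^ 2)) atTop (𝓝 0) := by
  rw [tendsto_iff_ultrafilter]
  intro F hF
  have h1 := (Complex.continuous_re.tendsto _).comp (BB_spec (U := U) (V := V) F w g g)
  have h2 : BB F U V w g g = 0 := by
    rw [← TT_inner, TT_zero F hUV hF hw]
    simp
  rw [h2, Complex.zero_re] at h1
  refine h1.congr (fun N => ?_)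
  simp only [Function.comp_apply]
  rw [cm_re_self]
  rfl

end Pool.Agent.Helper30.FX
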